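import Pool.Agent.P8H97.FE.Stm

/-!
# Project FE (helper97), package SVB: the upper bound sieve
-/

set_option autoImplicit false

namespace Pool.Agent.P8H52.FE

open Finset Filter
open Pool.Agent.P8H97.FE
open Pool.Agent.Y851.DK (sg P_SV P_AVG)

lemma sg_one : sg 1 = 0 := by unfold sg; simp

lemma sg_zero : sg 0 = 0 := by unfold sg; simp

/-- the family of linear forms -/
def fam {l : ℕ} (h : Fin l → ℕ) : Finset (ℤ × ℤ) := insert ((1 : ℤ), (0 : ℤ)) (univ.image (fun i => ((1 : ℤ), (h i : ℤ))))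

lemma not_mem {l : ℕ} (h : Fin l → ℕ) (h1 : ∀ i, 1 ≤ h i) :
    ((1 : ℤ), (0 : ℤ)) ∉ univ.image (fun i => ((1 : ℤ), (h i : ℤ))) := by
  intro hm
  rw [mem_image] at hm
  obtain ⟨i, _, hi⟩ := hm
  have h2 := congrArg Prod.snd hi
  have h3 := h1 i
  simp only at h2
  omega

lemma inj' {l : ℕ} {h : Fin l → ℕ} (hinj : Function.Injective h) :
    Function.Injective (fun i => ((1 : ℤ), (h i : ℤ))) := by
  intro i j hij
  have h2 := congrArg Prod.snd hij
  simp only at h2
  exact hinj (by exact_mod_cast h2)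

lemma sum_fam {l : ℕ} {h : Fin l → ℕ} (hinj : Function.Injective h) (h1 : ∀ i, 1 ≤ h i) (u : ℤ × ℤ → ℝ) :
    ∑ f ∈ fam h, u f = u (1, 0) + ∑ i, u (1, (h i : ℤ)) := by
  unfold fam
  rw [sum_insert (not_mem h h1), sum_image (fun i _ j _ hij => inj' hinj hij)]

lemma fst_fam {l : ℕ} {h : Fin l → ℕ} {f : ℤ × ℤ} (hf : f ∈ fam h) : f.1 = 1 := by
  unfold fam at hf
  rw [mem_insert, mem_image] at hf
  rcases hf with rfl | ⟨i, _, rfl⟩ <;> rfl

theorem svb : P_SV → S_SVB := by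
  intro hSV l
  obtain ⟨C, hC, hev⟩ := hSV (l + 1)
  refine ⟨C, hC, ?_⟩
  have hev' := tendsto_natCast_atTop_atTop.eventually hev
  filter_upwards [hev'] with N hN
  intro h hinj h1
  have hcard : (fam h).card = l + 1 := by
    unfold fam
    rw [card_insert_of_notMem (not_mem h h1), card_image_of_injective _ (inj' hinj), card_univ,
      Fintype.card_fin]
  have key := hN (fam h) hcard (fun f hf => by rw [fst_fam hf]; exact one_ne_zero)
    (fun f hf g hg hfg => by
      rw [fst_fam hf, fst_fam hg]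
      intro h0
      apply hfg
      apply Prod.ext
      · rw [fst_fam hf, fst_fam hg]
      · linarith)
  rw [sum_fam hinj h1, sum_fam hinj h1, sum_fam hinj h1] at key
  have e1 : ∀ j : Fin l, ∑ g ∈ fam h, sg (((1 : ℤ), (h j : ℤ)).1 * g.2 - g.1 * ((1 : ℤ), (h j : ℤ)).2).natAbs =
      sg (h j) + ∑ i, sg ((h i : ℤ) - (h j : ℤ)).natAbs := by
    intro j
    rw [sum_fam hinj h1]
    congr 1
    · simp
    · apply sum_congr rfl
      intro i _
      congr 2
      ring
  have e2 : (∑ j : Fin l, ∑ g ∈ fam h, sg (((1 : ℤ), (h j : ℤ)).1 * g.2 - g.1 * ((1 : ℤ), (h j : ℤ)).2).natAbs) =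
      ∑ j, sg (h j) + ∑ j, ∑ i, sg ((h i : ℤ) - (h j : ℤ)).natAbs := by
    rw [← sum_add_distrib]
    exact sum_congr rfl fun j _ => e1 j
  rw [e2] at key
  have e3 : sg (((1 : ℤ), (0 : ℤ)).1).natAbs + ∑ i : Fin l, sg (((1 : ℤ), (h i : ℤ)).1).natAbs = 0 := by
    simp [sg_one]
  have e4 : sg (((1 : ℤ), (0 : ℤ)).1 * ((1 : ℤ), (0 : ℤ)).2 - ((1 : ℤ), (0 : ℤ)).1 * ((1 : ℤ), (0 : ℤ)).2).natAbs +
      ∑ i : Fin l, sg (((1 : ℤ), (0 : ℤ)).1 * ((1 : ℤ), (h i : ℤ)).2 - ((1 : ℤ), (h i : ℤ)).1 * ((1 : ℤ), (0 : ℤ)).2).natAbs =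
      ∑ i, sg (h i) := by
    simp [sg_zero]
  rw [e3, e4] at key
  have e5 : (0 : ℝ) + (∑ i, sg (h i) + (∑ j, sg (h j) + ∑ j, ∑ i, sg ((h i : ℤ) - (h j : ℤ)).natAbs)) = S h := by
    unfold S
    ring
  rw [e5] at key
  have e6 : ((Icc 1 ⌊(N : ℝ)⌋₊).filter (fun n : ℕ => ∀ f ∈ fam h, (f.1 * (n : ℤ) + f.2).toNat.Prime)).card = cnt N h := by
    unfold cnt
    rw [Nat.floor_natCast]
    congr 1
    apply filter_congr
    intro n _
    constructor
    · intro hp
      constructor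
      · have := hp (1, 0) (mem_insert_self _ _)
        simpa using this
      · intro i
        have := hp (1, (h i : ℤ)) (mem_insert_of_mem (mem_image_of_mem _ (mem_univ i)))
        simp only [one_mul] at this
        have h2 : ((n : ℤ) + (h i : ℤ)).toNat = n + h i := by omega
        rwa [h2] at this
    · rintro ⟨hp, hq⟩ f hf
      unfold fam at hf
      rw [mem_insert, mem_image] at hf
      rcases hf with rfl | ⟨i, _, rfl⟩
      · simpa using hp
      · simp only [one_mul]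
        have h2 : ((n : ℤ) + (h i : ℤ)).toNat = n + h i := by omega
        rw [h2]
        exact hq i
  rw [e6] at key
  exact key

end Pool.Agent.P8H52.FE
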