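import Pool.Agent.P8H97.FE.Stm3

/-!
# Project FE (helper97), package THR: a positive proportion of the differences
-/

set_option autoImplicit false

namespace Pool.Agent.P8H52.FE

open Finset Filter
open Pool.Agent.P8H97.FE

lemma tri_mono {M N : ℕ} (h : M ≤ N) (d : ℕ) : tri M d ≤ tri N d := by
  unfold tri
  apply card_le_card
  apply filter_subset_filter
  exact Icc_subset_Icc le_rfl h

/-- second moment method -/
lemma second (N : ℕ) (f : ℕ → ℝ) (hf : ∀ d, 0 ≤ f d) (R k C : ℝ) (hN : 0 < N) (hR : 0 < R) (hk : 0 < k)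
    (hC : 0 < C) (h1 : k * (N * R) ≤ ∑ d ∈ Icc 1 N, f d) (h2 : ∑ d ∈ Icc 1 N, f d ^ 2 ≤ C * (N * R ^ 2)) :
    k ^ 2 / (4 * C) * N ≤ (((Icc 1 N).filter (fun d => k / 2 * R ≤ f d)).card : ℝ) := by
  set D := (Icc 1 N).filter (fun d => k / 2 * R ≤ f d) with hD
  have hNR : (0 : ℝ) < N := by exact_mod_cast hN
  have hsplit := Finset.sum_filter_add_sum_filter_not (Icc 1 N) (fun d => k / 2 * R ≤ f d) f
  have hsmall : ∑ d ∈ (Icc 1 N).filter (fun d => ¬ k / 2 * R ≤ f d), f d ≤ N * (k / 2 * R) := by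
    calc ∑ d ∈ (Icc 1 N).filter (fun d => ¬ k / 2 * R ≤ f d), f d
        ≤ ∑ d ∈ (Icc 1 N).filter (fun d => ¬ k / 2 * R ≤ f d), (k / 2 * R) := by
          apply Finset.sum_le_sum
          intro d hd
          rw [mem_filter] at hd
          exact (not_le.1 hd.2).le
      _ ≤ ∑ d ∈ Icc 1 N, (k / 2 * R) := by
          apply Finset.sum_le_sum_of_subset_of_nonneg (Finset.filter_subset _ _)
          intro i _ _
          positivity
      _ = N * (k / 2 * R) := by
          rw [sum_const, Nat.card_Icc, nsmul_eq_mul, Nat.add_sub_cancel]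
  have hbig : k / 2 * (N * R) ≤ ∑ d ∈ D, f d := by
    have : ∑ d ∈ D, f d + ∑ d ∈ (Icc 1 N).filter (fun d => ¬ k / 2 * R ≤ f d), f d = ∑ d ∈ Icc 1 N, f d := hsplit
    nlinarith
  have hcs : (∑ d ∈ D, f d) ^ 2 ≤ D.card * ∑ d ∈ D, f d ^ 2 := sq_sum_le_card_mul_sum_sq
  have hle : ∑ d ∈ D, f d ^ 2 ≤ C * (N * R ^ 2) := by
    refine (Finset.sum_le_sum_of_subset_of_nonneg (Finset.filter_subset _ _) ?_).trans h2
    intro i _ _
    positivity
  have h3 : (k / 2 * (N * R)) ^ 2 ≤ D.card * (C * (N * R ^ 2)) := by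
    calc (k / 2 * (N * R)) ^ 2 ≤ (∑ d ∈ D, f d) ^ 2 := pow_le_pow_left₀ (by positivity) hbig 2
      _ ≤ D.card * ∑ d ∈ D, f d ^ 2 := hcs
      _ ≤ D.card * (C * (N * R ^ 2)) := mul_le_mul_of_nonneg_left hle (Nat.cast_nonneg _)
  have h4 : (k / 2 * (N * R)) ^ 2 = (k ^ 2 / (4 * C) * N) * (C * (N * R ^ 2)) := by
    field_simp
    ring
  rw [h4] at h3
  exact le_of_mul_le_mul_right h3 (by positivity)

theorem thr : S_AP → S_UP → S_THR := by
  rintro ⟨k, hk, hA⟩ ⟨C, hC, hU⟩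
  have hC0 : 0 < C := by linarith
  obtain ⟨q, hq⟩ : ∃ q, q = min (k / 2) (k ^ 2 / (4 * C)) := ⟨_, rfl⟩
  have hq0 : 0 < q := by rw [hq]; positivity
  have hq1 : q ≤ k / 2 := by rw [hq]; exact min_le_left _ _
  have hq2 : q ≤ k ^ 2 / (4 * C) := by rw [hq]; exact min_le_right _ _
  refine ⟨q / 8, by positivity, ⌈2 / q⌉₊, ?_⟩
  filter_upwards [hA, hU, eventually_ge_atTop 2, eventually_ge_atTop ⌈4 / q ^ 2⌉₊, eventually_ge_atTop (⌈4 / q⌉₊ + 1)]
    with N h1 h2 hN2 hN3 hN4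
  have hN2R : (2 : ℝ) ≤ N := by exact_mod_cast hN2
  have hN3R : 4 / q ^ 2 ≤ N := (Nat.le_ceil _).trans (by exact_mod_cast hN3)
  have hN4R : 4 / q + 1 ≤ N := by
    have h := Nat.le_ceil (4 / q)
    have h' : ((⌈4 / q⌉₊ + 1 : ℕ) : ℝ) ≤ N := by exact_mod_cast hN4
    push_cast at h'
    linarith
  have hlog : 0 < Real.log N := Real.log_pos (by linarith)
  set R : ℝ := N / Real.log N ^ 3 with hR
  have hR0 : 0 < R := by positivity
  have hsec := second N (fun d => (tri N d : ℝ)) (fun d => Nat.cast_nonneg _) R k C (by omega) hR0 hk hC0 h1 h2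
  -- the small differences
  have hT : (((Icc 1 N).filter (fun d : ℕ => (d : ℝ) ≤ q / 2 * N)).card : ℝ) ≤ q / 2 * N := by
    have hsub : (Icc 1 N).filter (fun d : ℕ => (d : ℝ) ≤ q / 2 * N) ⊆ Icc 1 ⌊q / 2 * N⌋₊ := by
      intro d hd
      rw [mem_filter, mem_Icc] at hd
      rw [mem_Icc]
      exact ⟨hd.1.1, Nat.le_floor hd.2⟩
    have h3 := card_le_card hsub
    rw [Nat.card_Icc, Nat.add_sub_cancel] at h3
    exact (Nat.cast_le.2 h3).trans (Nat.floor_le (by positivity))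
  have hsub : (Icc 1 N).filter (fun d => k / 2 * R ≤ (tri N d : ℝ)) ⊆
      (Icc 1 N).filter (fun d : ℕ => 2 ≤ d ∧ q / 8 * (d / Real.log d ^ 3) ≤ tri (⌈2 / q⌉₊ * d) d) ∪
        (Icc 1 N).filter (fun d : ℕ => (d : ℝ) ≤ q / 2 * N) := by
    intro d hd
    rw [mem_filter] at hd
    obtain ⟨hd1, hd2⟩ := hd
    rw [mem_union, mem_filter, mem_filter]
    by_cases h3 : (d : ℝ) ≤ q / 2 * N
    · exact Or.inr ⟨hd1, h3⟩
    · left
      rw [not_le] at h3
      have h4 : (2 : ℝ) < q / 2 * N := by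
        have h5 : 4 / q < N := by linarith
        rw [div_lt_iff₀ hq0] at h5
        linarith
      have h6 : (2 : ℝ) < d := h4.trans h3
      have h7 : 2 ≤ d := by exact_mod_cast h6.le
      refine ⟨hd1, h7, ?_⟩
      have hN_le : N ≤ ⌈2 / q⌉₊ * d := by
        have h8 : (N : ℝ) ≤ 2 / q * d := by
          rw [div_mul_eq_mul_div, le_div_iff₀ hq0]
          linarith
        have h9 : (2 / q * d : ℝ) ≤ ⌈2 / q⌉₊ * d := mul_le_mul_of_nonneg_right (Nat.le_ceil _) (Nat.cast_nonneg _)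
        exact_mod_cast h8.trans h9
      have h10 : (tri N d : ℝ) ≤ tri (⌈2 / q⌉₊ * d) d := by exact_mod_cast tri_mono hN_le d
      have hlogd : 0 < Real.log d := Real.log_pos (by linarith)
      have h11 : Real.log N ≤ 2 * Real.log d := by
        have h12 : (N : ℝ) ≤ (d : ℝ) ^ 2 := by
          have h13 : 4 ≤ q ^ 2 * N := by
            rw [div_le_iff₀ (by positivity)] at hN3R
            linarith
          have h14 : (q / 2 * N) ^ 2 ≤ (d : ℝ) ^ 2 := pow_le_pow_left₀ (by positivity) h3.le 2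
          have h15 : (N : ℝ) ≤ (q / 2 * N) ^ 2 := by nlinarith
          exact h15.trans h14
        have h13 := Real.log_le_log (by linarith) h12
        rw [Real.log_pow] at h13
        push_cast at h13
        exact h13
      have h12 : Real.log N ^ 3 ≤ 8 * Real.log d ^ 3 := by
        calc Real.log N ^ 3 ≤ (2 * Real.log d) ^ 3 := pow_le_pow_left₀ hlog.le h11 3
          _ = 8 * Real.log d ^ 3 := by ring
      have hdN : (d : ℝ) ≤ N := by
        rw [mem_Icc] at hd1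
        exact_mod_cast hd1.2
      have h13 : q / 8 * (d / Real.log d ^ 3) ≤ k / 2 * R := by
        calc q / 8 * (d / Real.log d ^ 3) = q * (d / (8 * Real.log d ^ 3)) := by field_simp
          _ ≤ q * (N / Real.log N ^ 3) := by
              apply mul_le_mul_of_nonneg_left _ hq0.le
              exact div_le_div₀ (by linarith) hdN (by positivity) h12
          _ ≤ k / 2 * R := mul_le_mul_of_nonneg_right hq1 hR0.le
      exact h13.trans (hd2.trans h10)
  have hcard := card_le_card hsub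
  have hcard2 := hcard.trans (card_union_le _ _)
  have hcard3 : (((Icc 1 N).filter (fun d => k / 2 * R ≤ (tri N d : ℝ))).card : ℝ) ≤
      (((Icc 1 N).filter (fun d : ℕ => 2 ≤ d ∧ q / 8 * (d / Real.log d ^ 3) ≤ tri (⌈2 / q⌉₊ * d) d)).card : ℝ) +
        (((Icc 1 N).filter (fun d : ℕ => (d : ℝ) ≤ q / 2 * N)).card : ℝ) := by
    exact_mod_cast hcard2
  have h20 : q * N ≤ k ^ 2 / (4 * C) * N := mul_le_mul_of_nonneg_right hq2 (by positivity)
  have h21 : 0 < q * N := by positivity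
  linarith

end Pool.Agent.P8H52.FE
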